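import Mathlib
import Pool.Agent.H568.Qc4

/-!
# The Liouville function at quadratic polynomials in thin families: from `x^(7/10)` to `x^(5/6)` constant terms

Let `a ≠ 0` and `b` be fixed. For almost all constant terms `|c| ≤ C` the sums of `λ(a n² + b n + c)` over `n ≤ x` are
`o(x)` if `C ≥ x^(5/6+ε)` (library, `N792`, `MP_d639b3_nt.ThinConstantTerms`). Here is a bound for
`C ≥ x^(1/2+δ)`, `1/5 < δ ≤ 1/3`: for 100 percent of the `|c| ≤ C` (both signs) the sums over all intervals in `[-x, x]`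
and all residue classes to bounded moduli are at most `κ #{n} + τ x`, where
`κ = (3/2) log (2 (1 - δ) / (1 + δ))`. This is `0.43` for `δ = 1/5`, `0.11` for `δ = 0.3` (that is `C ≥ x^(4/5)`) and
tends to `0` at `δ = 1/3`; at the exponent `5/6` itself, `C ≥ x^(5/6)`, the bound is `o(x)`. The same for 100 percent of
the pairs of integers `|b|, |c| ≤ H` and all lengths `N` with `H² ≤ N`, `N^(1/2+δ) ≤ H²`; so `o(N)` up to `N = H^(12/5)`,
and a bound with a factor `κ < 1/2` up to `N = H^(20/7-ε)`.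

Proof. Let `s = x^(1-δ+ε)`. On average over `c ≤ C` the type II sums with divisors in `(s, x^(1-ε)]`, and the type I sums
with moduli up to `x^(1-ε)`, are accessible, both with a saving from the sign of the part of the values composed of small
primes. Instead of the identity of the library, `λ(v) = -∑ (-2)^ω(j)` over the divisors `j ≤ s` of a value
`v` without divisors in `(s, x^(1+δ)]` (which fails for the products of three primes near `x^(2/3)` and which is the
reason for the exponent `5/6`), consider the sums of `∏ g(p)`, `p ∣ j`, over the divisors `j ≤ s`, with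
`g(p) = -2` for `p < x^((1+δ)/2)` and `g(p) = -1/2` for `x^((1+δ)/2) ≤ p ≤ s`. A value `v` without divisors in the type II
range has one of the following shapes, apart from primes below `x^(2δ)`: a prime `> s`; a prime `> s` times a prime
in `(x^(2δ), s]`; three primes in `(x^(2δ), s]` any two of which have a product above `x^(1+δ)`, so at least two of
the three are at least `x^((1+δ)/2)` (here `δ > 1/5` excludes more primes). In all cases
the difference of `λ(v)` and `-∑ ∏ g(p)` is at most `3/2` times the number of the primes `p ∣ v` in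
`[x^((1+δ)/2), s]`. The values with a type II divisor are treated by functions of the pattern of their prime factors, as in
the library. It remains the average of the number of these primes, that is
`∑ 1 / p = log (2 (1 - δ) / (1 + δ)) + o(1)`, for almost all `c`, by the average over `c` of the numbers of the roots modulo
`p`.
-/

set_option autoImplicit false

namespace Pool.Agent.Results.MP_d639b3_nt.BelowFiveSixths

open Finset Filter Topology

/-- the Liouville function on the integers, with `λ(0) = 0` -/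
noncomputable def lio (m : ℤ) : ℝ := if m = 0 then 0 else (-1 : ℝ) ^ (ArithmeticFunction.cardFactors m.natAbs)

/-- for all moduli `q ≤ Q`, all residue classes and all intervals `[u, v] ⊆ [-x, x]` the sum of `λ(a n² + b n + c)` is at
most `κ #{n} + E` -/
def Bounded (a b c : ℤ) (Q x : ℕ) (κ E : ℝ) : Prop := ∀ q : ℕ, 1 ≤ q → q ≤ Q → ∀ r u v : ℤ, -(x : ℤ) ≤ u → v ≤ x →
  |∑ n ∈ (Icc u v).filter (fun n : ℤ => n ≡ r [ZMOD q]), lio (a * n ^ 2 + b * n + c)| ≤
    κ * #((Icc u v).filter (fun n : ℤ => n ≡ r [ZMOD q])) + E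

/-- **Theorem.** Let `a ≠ 0`, `1 / 5 < δ ≤ 1 / 3`, `τ > 0` and `Q` be given, `κ = (3 / 2) log (2 (1 - δ) / (1 + δ))`.
(1) For every `b`, all large `x` and all `C` with `x^(1/2+δ) ≤ C ≤ x`, all but at most `τ C` of the integers `|c| ≤ C`
satisfy `Bounded` with this `κ` and `E = τ x`. (2) For all large `H` and all `N` with `H² ≤ N` and `N^(1/2+δ) ≤ H²`, all but
at most `τ H²` of the pairs of integers `|b|, |c| ≤ H` satisfy `Bounded` with `x = N`, the same `κ` and `E = τ N`. -/
theorem result (a : ℤ) (ha : a ≠ 0) (δ τ : ℝ) (Q : ℕ) (hδ : 1 / 5 < δ) (hδ1 : δ ≤ 1 / 3) (hτ : 0 < τ) :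
    (∀ b : ℤ, ∃ x0 : ℕ, ∀ x : ℕ, x0 ≤ x → ∀ C : ℕ, (x : ℝ) ^ (1 / 2 + δ) ≤ C → C ≤ x →
      ∃ Ex ⊆ Icc (-(C : ℤ)) C, (#Ex : ℝ) ≤ τ * C ∧ ∀ c ∈ Icc (-(C : ℤ)) C, c ∉ Ex →
        Bounded a b c Q x (3 / 2 * Real.log (2 * (1 - δ) / (1 + δ))) (τ * x)) ∧
    (∃ H0 : ℕ, ∀ H : ℕ, H0 ≤ H → ∀ N : ℕ, H ^ 2 ≤ N → (N : ℝ) ^ (1 / 2 + δ) ≤ (H : ℝ) ^ 2 →
      ∃ Ex ⊆ Icc (-(H : ℤ)) H ×ˢ Icc (-(H : ℤ)) H, (#Ex : ℝ) ≤ τ * H ^ 2 ∧
        ∀ p ∈ Icc (-(H : ℤ)) H ×ˢ Icc (-(H : ℤ)) H, p ∉ Ex →
          Bounded a p.1 p.2 Q N (3 / 2 * Real.log (2 * (1 - δ) / (1 + δ))) (τ * N)) :=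
  ⟨fun b => Pool.Agent.H568.finB1 a ha b δ τ Q hδ hδ1 hτ, Pool.Agent.H568.finB2 a ha δ τ Q hδ hδ1 hτ⟩

end Pool.Agent.Results.MP_d639b3_nt.BelowFiveSixths
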