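import Pool.Agent.H542.PC.Q7

/-!
# The Liouville function at products of any number of translates `f + t + i` of a polynomial, for almost all `t`

From the starting files: the two point theorem at almost all scales for all additive twists
(`Pool.Agent.Helper896.TW.key_pairs`), the moments of Weyl sums (`Pool.Agent.H373R2`), polynomial phases over the primes
(`Pool.Agent.R486.PD`).
-/

set_option autoImplicit false

namespace Pool.Agent.Results.MP_d639b3_nt.ManyTranslates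

open Finset Filter Topology Polynomial

open Classical in
/-- Logarithmic density zero. -/
def LogDensityZero (E : Set ℕ) : Prop :=
  Tendsto (fun X : ℕ => (∑ n ∈ Icc 1 X, if n ∈ E then (1 : ℝ) / n else 0) / Real.log X) atTop (𝓝 0)

/-- The Liouville function at the integers `n ≥ 1`. -/
noncomputable def lam (n : ℤ) : ℝ := (-1) ^ ArithmeticFunction.cardFactors n.toNat

/-- The value of Liouville's function at the product of the numbers `n + i`, `i ∈ I`, for `n ≥ 1`, and `0` for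
`n ≤ 0`. -/
noncomputable def U (I : Finset ℕ) (n : ℤ) : ℝ := if 1 ≤ n then ∏ i ∈ I, lam (n + i) else 0

/-- The von Mangoldt function. -/
noncomputable def Lam (n : ℕ) : ℝ := ArithmeticFunction.vonMangoldt n

/-- There is a set `𝓑` of logarithmic density zero such that the following holds for every nonconstant integer
polynomial `f` of degree `k`, for all integers `t ≥ t₀`, `t ∉ 𝓑`, and for ALL `x` with `x ^ k ≤ K t` (in (1) and (2) also
`x ^ k ≥ ε t`); `t₀` depends on `f`, `K`, `ε` and on the sets of shifts. For a finite set `I` of integers `i ≥ 0` we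
consider the sums of Liouville's function at the values of the polynomial `F_I = ∏_{i ∈ I} (f + t + i)` of degree
`k |I|` at the integers `m ≤ x` (with `f(m) + t ≥ 1`, which holds for all `m` if `f(m)` tends to `+ ∞` and `t` is large),
and over the primes `m ≤ x`, weighted with the von Mangoldt function.

(0) For one and for two factors both sums are at most `(ε t) ^ (1 / k)` in absolute value.

(1) For every finite family `𝓘` of sets of shifts which differ pairwise in at most two elements (for example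
`S ∪ {j}`, `j ≤ J`, with `S` ARBITRARY), and for ALL weights `φ` with `|φ| ≤ 1` (for example the indicator function of a
progression) the sum over `I ∈ 𝓘` of the squares of the absolute values of the sums of `φ(m) λ(F_I(m))` is at most
`(1 + ε) x ^ 2`, at the integers and at the primes. In particular, for all sets `S` of shifts and all weights, the sums of
`φ(m) λ(F_{S ∪ {j}}(m))` are at most `η x` for all but `(1 + ε) / η ^ 2` of the shifts `j ≤ J`, `j ∉ S`, `J` being fixed.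

(2) If two sets `I ≠ J` of shifts differ in at most two elements, then
`|∑ λ(F_I(m))| + |∑ λ(F_J(m))| ≤ (1 + ε) x`, at the integers and at the primes. This applies to `k` consecutive shifts at
`t` and at `t + 1`, or to `k` and `k + 1` or `k + 2` consecutive shifts. -/
theorem result : ∃ 𝓑 : Set ℕ, LogDensityZero 𝓑 ∧
    ∀ f : ℤ[X], 1 ≤ f.natDegree → ∀ (K : ℕ) (ε : ℝ), 0 < ε →
    (∀ D : Finset ℕ, D.Nonempty → #D ≤ 2 → ∃ t₀ : ℕ, ∀ t : ℕ, t₀ ≤ t → t ∉ 𝓑 → ∀ x : ℕ, x ^ f.natDegree ≤ K * t →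
      |∑ m ∈ Icc 1 x, U D (t + f.eval (m : ℤ))| ^ f.natDegree ≤ ε * t ∧
      |∑ m ∈ Icc 1 x, Lam m * U D (t + f.eval (m : ℤ))| ^ f.natDegree ≤ ε * t) ∧
    (∀ 𝓘 : Finset (Finset ℕ), (∀ I ∈ 𝓘, ∀ J ∈ 𝓘, #(symmDiff I J) ≤ 2) → ∃ t₀ : ℕ, ∀ t : ℕ, t₀ ≤ t → t ∉ 𝓑 →
      ∀ x : ℕ, ε * t ≤ (x : ℝ) ^ f.natDegree → x ^ f.natDegree ≤ K * t → ∀ φ : ℕ → ℂ, (∀ m, ‖φ m‖ ≤ 1) →
        ∑ I ∈ 𝓘, ‖∑ m ∈ Icc 1 x, φ m * (U I (t + f.eval (m : ℤ)) : ℂ)‖ ^ 2 ≤ (1 + ε) * (x : ℝ) ^ 2 ∧
        ∑ I ∈ 𝓘, ‖∑ m ∈ Icc 1 x, (Lam m : ℂ) * (φ m * (U I (t + f.eval (m : ℤ)) : ℂ))‖ ^ 2 ≤ (1 + ε) * (x : ℝ) ^ 2) ∧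
    (∀ I J : Finset ℕ, I ≠ J → #(symmDiff I J) ≤ 2 → ∃ t₀ : ℕ, ∀ t : ℕ, t₀ ≤ t → t ∉ 𝓑 →
      ∀ x : ℕ, ε * t ≤ (x : ℝ) ^ f.natDegree → x ^ f.natDegree ≤ K * t →
        |∑ m ∈ Icc 1 x, U I (t + f.eval (m : ℤ))| + |∑ m ∈ Icc 1 x, U J (t + f.eval (m : ℤ))| ≤ (1 + ε) * x ∧
        |∑ m ∈ Icc 1 x, Lam m * U I (t + f.eval (m : ℤ))| + |∑ m ∈ Icc 1 x, Lam m * U J (t + f.eval (m : ℤ))| ≤
          (1 + ε) * x) := by
  obtain ⟨B, hB, h⟩ := Pool.Agent.H542.PC.many_all
  have hU : ∀ (I : Finset ℕ) (n : ℤ), U I n = Pool.Agent.H542.PC.UU I n := by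
    intro I n
    unfold U Pool.Agent.H542.PC.UU
    split_ifs with hn
    · refine prod_congr rfl fun i _ => ?_
      unfold lam Pool.Agent.Helper896.MA.lm
      have e : (n + (i : ℤ)).toNat = n.toNat + i := by omega
      rw [e]
      push_cast
      rfl
    · rfl
  refine ⟨B, hB, fun f hf K ε hε => ?_⟩
  obtain ⟨h1, h2, h3⟩ := h f hf K ε hε
  refine ⟨?_, ?_, ?_⟩
  · intro D hD hD2
    obtain ⟨t₀, ht₀⟩ := h1 D hD hD2
    refine ⟨t₀, fun t ht htB x hx => ?_⟩
    simp only [hU, Lam]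
    exact ht₀ t ht htB x hx
  · intro 𝓘 hI
    obtain ⟨t₀, ht₀⟩ := h2 𝓘 hI
    refine ⟨t₀, fun t ht htB x hx1 hx2 φ hφ => ?_⟩
    simp only [hU, Lam]
    exact ht₀ t ht htB x hx1 hx2 φ hφ
  · intro I J hIJ hD
    obtain ⟨t₀, ht₀⟩ := h3 I J hIJ hD
    refine ⟨t₀, fun t ht htB x hx1 hx2 => ?_⟩
    simp only [hU, Lam]
    exact ht₀ t ht htB x hx1 hx2

end Pool.Agent.Results.MP_d639b3_nt.ManyTranslates
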