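import Mathlib
import Pool.Agent.H526.PE.Final
import Pool.Agent.H526.PE.G2p
import Pool.Agent.H526.PQ.Final

/-!
# `λ` at products of linear and arbitrary inseparable polynomials, with multiplicative weights, over
`F_q[X]`, `q` even

`K` is a finite field of characteristic two, `h ∈ K[X][T]` is any nonzero polynomial in `T²`, the
`α_j T + β_j` are linear polynomials, at least one.  The sums over the monic `a` of degree `m` in a
residue class of `G(a) P(a) λ(h(a) ∏ (α_j a + β_j))` are `o(q ^ m)`, uniformly in all multiplicative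
functions `G` bounded by one and all polynomial phases `P` of bounded degree.  For `h = ∏ (T² + c_i)`
the linear factors may be missing under a condition of non-degeneracy.

The input for (1) is the theorem of helper140 (`Pool/Agent/H140/MH`, see
`MP_648c71_nt.AllInseparableFactors`) on `λ(f(a) h(a))` with phases.
-/

namespace Pool.Agent.Results.MP_d639b3_nt.MultiplicativeWeights

open Polynomial
open scoped ComplexConjugate

open Classical in
/-- The Liouville function of `K[X]`: `(-1) ^ k` if `F` is a nonzero constant times a product of `k`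
monic irreducible polynomials, counted with multiplicity, and `0` for `F = 0`. -/
noncomputable def liouville {K : Type} [Field K] (F : K[X]) : ℤ :=
  if F = 0 then 0 else (-1) ^ Multiset.card (UniqueFactorizationMonoid.factors F)

open Classical in
/-- The Möbius function of `K[X]`: `(-1) ^ k` if `F` is a nonzero constant times a product of `k`
distinct monic irreducible polynomials, and `0` for all other `F`. -/
noncomputable def moebius {K : Type} [Field K] (F : K[X]) : ℤ :=
  if Squarefree F then (-1) ^ Multiset.card (UniqueFactorizationMonoid.factors F) else 0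

/-- Polynomial phases of degree less than `s` on the additive group of `K[X]`: the multiplicative
derivatives of order `s` are equal to `1`. -/
def IsPhase {K : Type} [Field K] : ℕ → (K[X] → ℂ) → Prop
  | 0, P => ∀ u, P u = 1
  | s + 1, P => ∀ y, IsPhase s (fun u => P (u + y) * conj (P u))

/-- Multiplicative functions on the monic polynomials, bounded by one. -/
def BoundedMultiplicative {K : Type} [Field K] (G : K[X] → ℂ) : Prop :=
  (∀ f, ‖G f‖ ≤ 1) ∧ ∀ f h : K[X], f.Monic → h.Monic → IsCoprime f h → G (f * h) = G f * G h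

/-- The polynomial `∏ (α_j T + β_j)`. -/
noncomputable def linear {K : Type} [Field K] {k : ℕ} (α β : Fin k → K[X]) : K[X][X] :=
  ∏ j, (C (α j) * X + C (β j))

/-- The polynomial `∏ (T² + c_i)`. -/
noncomputable def quadratic {K : Type} [Field K] {n : ℕ} (c : Fin n → K[X]) : K[X][X] :=
  ∏ i, (X ^ 2 + C (c i))

/-- The sum of `G(a) P(a) λ(F(a))` over the monic `a` of degree `m` in the class `r` modulo `Q`. -/
noncomputable def twistedSum {K : Type} [Field K] (F : K[X][X]) (G P : K[X] → ℂ) (Q r : K[X])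
    (m : ℕ) : ℂ :=
  ∑ᶠ a ∈ {a : K[X] | a.Monic ∧ a.natDegree = m ∧ Q ∣ a - r},
    G a * (P a * ((liouville (F.eval a) : ℤ) : ℂ))

section aux

variable {K : Type} [Field K]

theorem phase_iff (s : ℕ) (P : K[X] → ℂ) : IsPhase s P ↔ Pool.Agent.H526.PE.Ph s P := by
  induction s generalizing P with
  | zero => exact Iff.rfl
  | succ s ih =>
    constructor
    · intro h y
      exact (ih _).1 (h y)
    · intro h y
      exact (ih _).2 (h y)

theorem liouville_prod {ι : Type} (s : Finset ι) (F : ι → K[X]) :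
    liouville (∏ i ∈ s, F i) = ∏ i ∈ s, liouville (F i) := by
  classical
  induction s using Finset.induction_on with
  | empty =>
    rw [Finset.prod_empty, Finset.prod_empty]
    exact Pool.Agent.H524.Cw.lio_unit isUnit_one
  | insert a s ha ih =>
    rw [Finset.prod_insert ha, Finset.prod_insert ha, ← ih]
    exact Pool.Agent.H524.Cw.lio_mul _ _

theorem ph_mono {s t : ℕ} (h : s ≤ t) {P : K[X] → ℂ} (hP : Pool.Agent.H526.PE.Ph s P) :
    Pool.Agent.H526.PE.Ph t P := by
  induction h with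
  | refl => exact hP
  | step _ ih => exact Pool.Agent.H526.PE.Phl.main.2.2.1 _ _ _ ih

/-- Residue classes. -/
theorem classes [Fintype K] [CharP K 2] (s : ℕ) (ε : ℝ) (m : ℕ) (G W : K[X] → ℂ)
    (h : ∀ P : K[X] → ℂ, Pool.Agent.H526.PE.Ph (max s 2) P →
      ‖∑ a ∈ Pool.Agent.H694.Typ.Mn K m, G a * (P a * W a)‖ ≤ ε * (Fintype.card K : ℝ) ^ m)
    (P : K[X] → ℂ) (hP : IsPhase s P) (Q r : K[X]) (hQ : Q ≠ 0) :
    ‖∑ᶠ a ∈ {a : K[X] | a.Monic ∧ a.natDegree = m ∧ Q ∣ a - r}, G a * (P a * W a)‖ ≤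
      ε * (Fintype.card K : ℝ) ^ m := by
  classical
  obtain ⟨N, χ, hN, hχ, hind⟩ := Pool.Agent.H526.PE.Cls.main K Q r hQ
  have hN' : (0 : ℝ) < N := by exact_mod_cast hN
  have hset : {a : K[X] | a.Monic ∧ a.natDegree = m ∧ Q ∣ a - r} =
      ↑((Pool.Agent.H694.Typ.Mn K m).filter (fun a => Q ∣ a - r)) := by
    ext a
    rw [Finset.coe_filter, Set.mem_ofPred_eq, Set.mem_ofPred_eq, Pool.Agent.H694.Typ.mem_Mn]
    tauto
  rw [hset, finsum_mem_coe_finset, Finset.sum_filter]
  have h1 : ∀ a : K[X], (if Q ∣ a - r then G a * (P a * W a) else 0) =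
      (∑ i, G a * ((P a * χ i a) * W a)) / N := by
    intro a
    have : (if Q ∣ a - r then G a * (P a * W a) else 0) =
        (if Q ∣ a - r then (1 : ℂ) else 0) * (G a * (P a * W a)) := by
      split_ifs <;> ring
    rw [this, hind a, div_mul_eq_mul_div, Finset.sum_mul]
    congr 1
    refine Finset.sum_congr rfl fun i _ => ?_
    ring
  rw [Finset.sum_congr rfl fun a _ => h1 a, ← Finset.sum_div, Finset.sum_comm, norm_div,
    Complex.norm_natCast, div_le_iff₀ hN']
  have h2 : ∀ i, Pool.Agent.H526.PE.Ph (max s 2) (fun a => P a * χ i a) := fun i =>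
    Pool.Agent.H526.PE.Phl.main.1 _ _ _ _ (ph_mono (le_max_left _ _) ((phase_iff s P).1 hP))
      (ph_mono (le_max_right _ _) (hχ i))
  calc ‖∑ i, ∑ a ∈ Pool.Agent.H694.Typ.Mn K m, G a * ((P a * χ i a) * W a)‖
      ≤ ∑ i, ‖∑ a ∈ Pool.Agent.H694.Typ.Mn K m, G a * ((P a * χ i a) * W a)‖ := norm_sum_le _ _
    _ ≤ ∑ _i : Fin N, ε * (Fintype.card K : ℝ) ^ m := Finset.sum_le_sum fun i _ => h _ (h2 i)
    _ = ε * (Fintype.card K : ℝ) ^ m * N := by
        rw [Finset.sum_const, Finset.card_univ, Fintype.card_fin, nsmul_eq_mul, mul_comm]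

theorem eval_lin {k : ℕ} (α β : Fin k → K[X]) (h : K[X][X]) (a : K[X]) :
    ((liouville ((linear α β * h).eval a) : ℤ) : ℂ) =
      ((Pool.Agent.H526.PE.lio ((∏ j, (α j * a + β j)) * h.eval a) : ℝ) : ℂ) := by
  have h2 : (linear α β * h).eval a = (∏ j, (α j * a + β j)) * h.eval a := by
    unfold linear
    rw [eval_mul, eval_prod]
    simp only [eval_add, eval_mul, eval_X, eval_C]
  rw [h2]
  push_cast
  rfl

theorem eval_quad {n : ℕ} (c : Fin n → K[X]) (a : K[X]) :
    ((liouville ((quadratic c).eval a) : ℤ) : ℂ) =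
      ((∏ i, (Pool.Agent.H526.PE.lio (a ^ 2 + c i) : ℝ) : ℝ) : ℂ) := by
  have h2 : (quadratic c).eval a = ∏ i, (a ^ 2 + c i) := by
    unfold quadratic
    rw [eval_prod]
    simp only [eval_add, eval_pow, eval_X, eval_C]
  rw [h2, liouville_prod]
  push_cast
  rfl

end aux

theorem result (K : Type) [Field K] [Fintype K] [CharP K 2] :
    -- (1) linear factors, an arbitrary polynomial `h` in `T²`, phases, residue classes
    (∀ (k : ℕ) (α β : Fin k → K[X]) (h : K[X][X]), 1 ≤ k → (∀ j, α j ≠ 0) → (∀ j, β j ≠ 0) →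
      (∀ i j, i ≠ j → α i * β j ≠ α j * β i) → h ≠ 0 → derivative h = 0 →
      ∀ (s : ℕ) (ε : ℝ), 0 < ε → ∃ m₀ : ℕ, ∀ m : ℕ, m₀ ≤ m →
        ∀ G : K[X] → ℂ, BoundedMultiplicative G → ∀ P : K[X] → ℂ, IsPhase s P →
        ∀ Q r : K[X], Q ≠ 0 →
          ‖twistedSum (linear α β * h) G P Q r m‖ ≤ ε * (Fintype.card K : ℝ) ^ m) ∧
    -- (2) no linear factor, the non-degenerate case
    (∀ (n : ℕ) (c : Fin n → K[X]), (∀ i, ¬ IsSquare (c i)) →
      (∑ i, 1 / algebraMap K[X] (RatFunc K) (derivative (c i)) ≠ 0 ∨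
        ∑ i, algebraMap K[X] (RatFunc K) (c i) /
          algebraMap K[X] (RatFunc K) (derivative (c i)) ^ 2 ≠ 0) →
      ∀ (s : ℕ) (ε : ℝ), 0 < ε → ∃ m₀ : ℕ, ∀ m : ℕ, m₀ ≤ m →
        ∀ G : K[X] → ℂ, BoundedMultiplicative G → ∀ P : K[X] → ℂ, IsPhase s P →
        ∀ Q r : K[X], Q ≠ 0 →
          ‖twistedSum (quadratic c) G P Q r m‖ ≤ ε * (Fintype.card K : ℝ) ^ m) ∧
    -- (3) a rate for the `μ(a² + X g_i²)`
    (∀ (n : ℕ) (g : Fin n → K[X]), (∀ i, g i ≠ 0) →
      ∑ i, ∏ j ∈ Finset.univ.erase i, g j ≠ 0 → ∃ B : ℝ, ∀ m : ℕ, 2 ≤ m →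
      ∀ G : K[X] → ℂ, BoundedMultiplicative G →
        ‖∑ᶠ a ∈ {a : K[X] | a.Monic ∧ a.natDegree = m},
          G a * ∏ i, ((moebius (a ^ 2 + X * g i ^ 2) : ℤ) : ℂ)‖ ≤
            B * (Fintype.card K : ℝ) ^ m / Real.sqrt (Real.log m)) := by
  refine ⟨?_, ?_, ?_⟩
  · intro k α β h hk hα hβ hαβ hh hd s ε hε
    obtain ⟨m₀, h1⟩ := Pool.Agent.H526.PE.G2p.s_G2p K k α β h (max s 2) ε hk hα hβ hαβ hh hd hε
    refine ⟨m₀, fun m hm G hG P hP Q r hQ => ?_⟩
    unfold twistedSum
    refine classes s ε m G _ (fun P' hP' => ?_) P hP Q r hQ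
    rw [Finset.sum_congr rfl fun a _ => by rw [eval_lin α β h a]]
    exact h1 m hm P' hP' G hG
  · intro n c hc hk s ε hε
    obtain ⟨m₀, h⟩ := Pool.Agent.H526.PE.s_G3 K n c (max s 2) ε hc hk hε
    refine ⟨m₀, fun m hm G hG P hP Q r hQ => ?_⟩
    unfold twistedSum
    refine classes s ε m G _ (fun P' hP' => ?_) P hP Q r hQ
    rw [Finset.sum_congr rfl fun a _ => by rw [eval_quad c a]]
    exact h m hm P' hP' G hG
  · intro n g hg hs
    obtain ⟨B, h⟩ := Pool.Agent.H526.PQ.s_orthk K n g hg hs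
    refine ⟨B, fun m hm G hG => ?_⟩
    have hset : {a : K[X] | a.Monic ∧ a.natDegree = m} = ↑(Pool.Agent.H694.Typ.Mn K m) := by
      ext a
      rw [Finset.mem_coe, Set.mem_ofPred_eq, Pool.Agent.H694.Typ.mem_Mn]
    rw [hset, finsum_mem_coe_finset]
    exact h m hm G hG.1 hG.2

end Pool.Agent.Results.MP_d639b3_nt.MultiplicativeWeights
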