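import Mathlib
import Pool.Agent.H615.SP.E

/-!
# The Liouville function at the values of completely split polynomials, at almost all scales

There is **one** set `E` of logarithmic density zero such that the following holds outside of `E`, for all polynomials
`f` with integer coefficients and rational simple roots and all progressions `r` modulo `q`.

1. The sum of `λ(f(v))` over the `v ≡ r` modulo `q`, `|v| ≤ X`, is at most `κ_d + ε` times the number of these `v`, where
   `d` is the degree of `f`, for `X ≥ X₀(f, q, r, ε)`, `X ∉ E`. Here `κ_d = 0` if `d` is odd or `d = 2`, and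
   `κ_d = 1 - 1 / (2 ^ (d - 1) - 1)` if `d ≥ 4` is even; so `κ_4 = 6 / 7`, `κ_6 = 30 / 31`.
2. If the product of `c` translates `f(T + h)`, `h ≡ 0` modulo `q`, of a nonzero polynomial `f` is a square times a
   polynomial `w` with rational simple roots, the number of which is two or odd, then the bound is `1 - 1 / c + ε` times
   the number of the `v`. This is `1 / 2` if the roots of `f` are an arithmetic progression whose difference is divisible
   by `q`, and `2 / 3` for the roots `0, 1, 3, 4` and `q = 1`.

The proof of part 1 reduces the sum to the Liouville function along linear forms `A i n + B i` with natural coefficients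
(`SP/B`, adapted from the library `E8helper83.WS`), in a way that keeps the scales outside of sets of logarithmic
density zero (`LZ_div`); the forms are treated by the theorems on the correlations of an odd number and of two values
(`Pool.Agent.N675.FM`) and by the explicit bound on periodic sets (`Pool.Agent.W4h4.CS.unif'`, used through
`H615/VP/B1`). Part 2 follows from part 1 for `w` by a pointwise inequality for products of signs. The exceptional sets
are put together by the diagonal argument of `Pool.Agent.Y958.U`.
-/

set_option autoImplicit false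

namespace Pool.Agent.Results.MP_d639b3_nt.SplitAlmostAllScales

open Finset Filter Topology Polynomial
open Pool.Agent.H615.SP (S prog kap SplitSimple)

open Classical in
/-- `E` has logarithmic density zero. -/
def LogNull (E : Set ℕ) : Prop :=
  Tendsto (fun X : ℕ => (∑ n ∈ Icc 1 X, if n ∈ E then (1 : ℝ) / n else 0) / Real.log X) atTop (𝓝 0)

/-- **Chowla's conjecture for completely split polynomials at almost all scales**: `S f q r X` is the sum of `λ(f(v))`
over the set `prog q r X` of the integers `v ≡ r` modulo `q` with `|v| ≤ X`. -/
theorem result : ∃ E : Set ℕ, LogNull E ∧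
    (∀ f : ℤ[X], SplitSimple f → ∀ (q : ℕ) (r : ℤ), 1 ≤ q → ∀ ε : ℝ, 0 < ε →
      ∃ X₀ : ℕ, ∀ X : ℕ, X₀ ≤ X → X ∉ E → |S f q r X| ≤ (kap f.natDegree + ε) * (prog q r X).card) ∧
    (∀ f g w : ℤ[X], f ≠ 0 → SplitSimple w → (w.natDegree = 2 ∨ Odd w.natDegree) → ∀ (q : ℕ) (r : ℤ), 1 ≤ q →
      ∀ H : Finset ℤ, H.Nonempty → (∀ h ∈ H, (q : ℤ) ∣ h) → ∏ h ∈ H, f.comp (X + C h) = g ^ 2 * w →
        ∀ ε : ℝ, 0 < ε → ∃ X₀ : ℕ, ∀ X : ℕ, X₀ ≤ X → X ∉ E →
          |S f q r X| ≤ (1 - 1 / (H.card : ℝ) + ε) * (prog q r X).card) :=
  Pool.Agent.H615.SP.main

end Pool.Agent.Results.MP_d639b3_nt.SplitAlmostAllScales
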